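import Pool.Agent.W662.CB.Stmts

set_option autoImplicit false

open MeasureTheory Filter Topology Complex
open scoped InnerProductSpace ENNReal

/-!
The coefficients of an element of the corner.
-/

namespace Pool.Agent.W382.CB

open Pool.Agent.W662.CB

section
variable {H K : Type} [NormedAddCommGroup H] [InnerProductSpace ℂ H] [CompleteSpace H]
  [NormedAddCommGroup K] [InnerProductSpace ℂ K] [CompleteSpace K]
  {U : ℝ → H →L[ℂ] H} {κ : (H →L[ℂ] H) →⋆ₐ[ℂ] (K →L[ℂ] K)} {V : ℝ → K →L[ℂ] K}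
  {J : H →L[ℂ] K} {E : ℂ → K →L[ℂ] K} {T δ : ℝ}

theorem E_real_star (hb : BoxP U κ V J E T δ) (t : ℝ) : star (E (t : ℂ)) = E ((-t : ℝ) : ℂ) := by
  rw [hb.E_star, Complex.conj_ofReal, Complex.ofReal_neg]

theorem inner_E (hb : BoxP U κ V J E T δ) (t : ℝ) (w : H) (u : K) :
    ⟪E (t : ℂ) (J w), u⟫_ℂ = ⟪w, ContinuousLinearMap.adjoint J (E ((-t : ℝ) : ℂ) u)⟫_ℂ := by
  rw [ContinuousLinearMap.adjoint_inner_right, ← E_real_star hb,
    ContinuousLinearMap.star_eq_adjoint, ContinuousLinearMap.adjoint_inner_right]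

theorem EE (hb : BoxP U κ V J E T δ) (z w : ℂ) (u : K) : E z (E w u) = E (z + w) u := by
  rw [hb.E_add]; rfl

/-- Bessel's inequality -/
theorem bessel (hb : BoxP U κ V J E T δ) (F : Finset ℤ) (u : K) :
    ∑ m ∈ F, ‖ContinuousLinearMap.adjoint J (E ((-((m : ℝ) * T) : ℝ) : ℂ) u)‖ ^ 2 ≤ ‖u‖ ^ 2 := by
  set c : ℤ → H := fun m => ContinuousLinearMap.adjoint J (E ((-((m : ℝ) * T) : ℝ) : ℂ) u)
    with hc
  set S : K := ∑ m ∈ F, E (((m : ℝ) * T : ℝ) : ℂ) (J (c m)) with hS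
  have h1 : ∀ m ∈ F, ContinuousLinearMap.adjoint J (E ((-((m : ℝ) * T) : ℝ) : ℂ) S) = c m := by
    intro m hm
    rw [hS, map_sum, map_sum, Finset.sum_eq_single m]
    · rw [EE hb]
      have e : ((-((m : ℝ) * T) : ℝ) : ℂ) + (((m : ℝ) * T : ℝ) : ℂ) = 0 := by
        push_cast; ring
      rw [e, hb.E_J, hb.J_iso]
    · intro m' _ hne
      rw [EE hb]
      have e : ((-((m : ℝ) * T) : ℝ) : ℂ) + (((m' : ℝ) * T : ℝ) : ℂ) =
          ((((m' - m : ℤ) : ℝ) * T : ℝ) : ℂ) := by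
        push_cast; ring
      rw [e]
      exact hb.orth (m' - m) (c m') (sub_ne_zero.2 hne)
    · intro h; exact absurd hm h
  have h2 : ⟪S, S⟫_ℂ = ∑ m ∈ F, ⟪c m, c m⟫_ℂ := by
    conv_lhs => rw [hS, sum_inner]
    refine Finset.sum_congr rfl fun m hm => ?_
    rw [inner_E hb, ← hS, h1 m hm]
  have h3 : ⟪S, u⟫_ℂ = ∑ m ∈ F, ⟪c m, c m⟫_ℂ := by
    conv_lhs => rw [hS, sum_inner]
    refine Finset.sum_congr rfl fun m hm => ?_
    rw [inner_E hb]
  have h4 : ‖S‖ ^ 2 = ∑ m ∈ F, ‖c m‖ ^ 2 := by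
    have h5 : ((‖S‖ ^ 2 : ℝ) : ℂ) = ((∑ m ∈ F, ‖c m‖ ^ 2 : ℝ) : ℂ) := by
      have h6 : ⟪S, S⟫_ℂ = ((‖S‖ ^ 2 : ℝ) : ℂ) := by
        rw [inner_self_eq_norm_sq_to_K]; push_cast; rfl
      rw [← h6, h2, Complex.ofReal_sum]
      refine Finset.sum_congr rfl fun m _ => ?_
      rw [inner_self_eq_norm_sq_to_K]; push_cast; rfl
    exact_mod_cast h5
  have h7 : ‖S‖ ^ 2 ≤ ‖S‖ * ‖u‖ := by
    have h8 : ((‖S‖ ^ 2 : ℝ) : ℂ) = ⟪S, u⟫_ℂ := by
      rw [h3, ← h2, inner_self_eq_norm_sq_to_K]; push_cast; rfl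
    have h9 := norm_inner_le_norm (𝕜 := ℂ) S u
    rw [← h8, Complex.norm_real, Real.norm_eq_abs, abs_of_nonneg (by positivity)] at h9
    exact h9
  have h10 : ‖S‖ ≤ ‖u‖ := by
    rcases (norm_nonneg S).eq_or_lt with h0 | h0
    · rw [← h0]; exact norm_nonneg u
    · rw [pow_two] at h7
      exact le_of_mul_le_mul_left h7 h0
  rw [← h4]
  exact pow_le_pow_left₀ (norm_nonneg _) h10 2

end

theorem norm_apply_le {H : Type} [NormedAddCommGroup H] [InnerProductSpace ℂ H] [CompleteSpace H]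
    {M : VonNeumannAlgebra H} {ξ : H} {U : ℝ → H →L[ℂ] H} (h : IsModular M ξ U) (t : ℝ) (v : H) :
    ‖U t v‖ = ‖v‖ := by
  have h1 : ⟪U t v, U t v⟫_ℂ = ⟪v, v⟫_ℂ := by
    have h2 : ContinuousLinearMap.adjoint (U t) (U t v) = v := by
      rw [← ContinuousLinearMap.star_eq_adjoint, h.star_eq]
      have h3 : (U (-t) * U t) v = v := by
        rw [← h.add, neg_add_cancel, h.zero]; rfl
      exact h3
    rw [← ContinuousLinearMap.adjoint_inner_right, h2]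
  rw [inner_self_eq_norm_sq_to_K, inner_self_eq_norm_sq_to_K] at h1
  have h4 : ‖U t v‖ ^ 2 = ‖v‖ ^ 2 := by exact_mod_cast h1
  exact (pow_left_inj₀ (norm_nonneg _) (norm_nonneg _) two_ne_zero).1 h4

theorem b7 (h1 : S_B1) (h2 : S_B2) : S_B7 := by
  intro H K _ _ _ _ _ _ M N ξ U κ V J E T δ hstd hb Y hY hEY hYn
  obtain ⟨f1, f2, f3, f4, f5, f6, f7, f8, f9⟩ := h1 H K M ξ U κ V J E T δ hstd.modular hb
  obtain ⟨g1, g2, g3⟩ := h2 H K N U κ V J E T δ hb Y hY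
  have hE00 : E 0 * E 0 = E 0 := by
    rw [← hb.E_add, add_zero]
  have hstar0 : star (E 0) = E 0 := by
    have := E_real_star hb 0
    simpa using this
  have hYE : Y * E 0 = Y := by
    conv_lhs => rw [← hEY]
    rw [mul_assoc, hE00, hEY]
  have hEYs : ∀ w : K, E 0 (star Y w) = star Y w := by
    intro w
    have h3 : E 0 * star Y = star Y := by
      have := congrArg star hYE
      rwa [star_mul, hstar0] at this
    have h4 := congrArg (fun L : K →L[ℂ] K => L w) h3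
    exact h4
  have hYv : ∀ v : H, ‖Y (J v)‖ ≤ ‖v‖ := by
    intro v
    calc ‖Y (J v)‖ ≤ ‖Y‖ * ‖J v‖ := Y.le_opNorm _
      _ ≤ 1 * ‖J v‖ := mul_le_mul_of_nonneg_right hYn (norm_nonneg _)
      _ = ‖v‖ := by rw [one_mul, f5]
  have hYv' : ∀ v : H, ‖star Y (J v)‖ ≤ ‖v‖ := by
    intro v
    have h5 : ‖star Y‖ ≤ 1 := by rw [norm_star]; exact hYn
    calc ‖star Y (J v)‖ ≤ ‖star Y‖ * ‖J v‖ := (star Y).le_opNorm _
      _ ≤ 1 * ‖J v‖ := mul_le_mul_of_nonneg_right h5 (norm_nonneg _)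
      _ = ‖v‖ := by rw [one_mul, f5]
  refine ⟨?_, ?_, ?_⟩
  · intro m
    have h3 := g3 ((-((m : ℝ) * T) : ℝ) : ℂ) 0
    rw [mul_assoc, hYE] at h3
    exact (h2 H K N U κ V J E T δ hb _ h3).1
  · intro F v
    have h3 := bessel hb F (Y (J v))
    have h4 : ∀ m : ℤ, cf J E T Y m v =
        ContinuousLinearMap.adjoint J (E ((-((m : ℝ) * T) : ℝ) : ℂ) (Y (J v))) := fun m => rfl
    simp only [h4]
    exact h3.trans (pow_le_pow_left₀ (norm_nonneg _) (hYv v) 2)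
  · intro F v
    set w : K := star Y (J v) with hw
    have h4 : ∀ m : ℤ, star (cf J E T Y m) (U ((m : ℝ) * T) v) =
        U ((m : ℝ) * T) (ContinuousLinearMap.adjoint J (E (((m : ℝ) * T : ℝ) : ℂ) w)) := by
      intro m
      have e1 : star (cf J E T Y m) (U ((m : ℝ) * T) v) =
          ContinuousLinearMap.adjoint J (star Y (E (((m : ℝ) * T : ℝ) : ℂ)
            (J (U ((m : ℝ) * T) v)))) := by
        unfold cf sl
        rw [ContinuousLinearMap.star_eq_adjoint, ContinuousLinearMap.adjoint_comp,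
          ContinuousLinearMap.adjoint_comp, ContinuousLinearMap.adjoint_adjoint,
          ← ContinuousLinearMap.star_eq_adjoint (E _ * Y), star_mul, E_real_star hb, neg_neg]
        rfl
      rw [e1, ← hb.V_J]
      have e2 : star Y (V ((m : ℝ) * T) (J v)) = V ((m : ℝ) * T) w := by
        have e3 := congrArg (fun L : K →L[ℂ] K => L (J v)) (g2.1 ((m : ℝ) * T))
        exact e3
      rw [e2, f2, EE hb]
      have e5 : ((-((m : ℝ) * T) : ℝ) : ℂ) + (((m : ℝ) * T : ℝ) : ℂ) = 0 := by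
        push_cast; ring
      rw [e5, hw, hEYs]
    have h6 : ∑ m ∈ F, ‖star (cf J E T Y m) (U ((m : ℝ) * T) v)‖ ^ 2 =
        ∑ m ∈ F.map (Equiv.neg ℤ).toEmbedding,
          ‖ContinuousLinearMap.adjoint J (E ((-((m : ℝ) * T) : ℝ) : ℂ) w)‖ ^ 2 := by
      rw [Finset.sum_map]
      refine Finset.sum_congr rfl fun m _ => ?_
      rw [h4, norm_apply_le hstd.modular]
      have e7 : (-((((Equiv.neg ℤ).toEmbedding m : ℤ) : ℝ) * T) : ℝ) = (m : ℝ) * T := by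
        show (-(((-m : ℤ) : ℝ) * T) : ℝ) = (m : ℝ) * T
        push_cast; ring
      rw [e7]
    rw [h6]
    exact (bessel hb _ w).trans (pow_le_pow_left₀ (norm_nonneg _) (hYv' v) 2)

end Pool.Agent.W382.CB
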